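import Pool.Agent.Y560.TQ.Defs
import Pool.Agent.H70TH.Dec

/-!
Project TQ: the assembly.
-/

set_option autoImplicit false

namespace Pool.Agent.Y560.TQ

open Set MeasureTheory
open Pool.Agent.Y560.TH (XC IsoC MT S_MED transfer)
open Pool.Agent.H70TH (bsC isoC_symm isoC_trans)

theorem sc4 : SecondCountableTopology (ℕ → ℕ → ℕ → ℕ → Bool) := inferInstance

theorem sc5 (Γ : Type) [Countable Γ] : SecondCountableTopology (XQ Γ) := by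
  have h1 : SecondCountableTopology (ℕ → ℕ → ℕ → ℕ → Bool) := sc4
  have h2 : SecondCountableTopology ((Γ → ℕ → ℕ) × (ℕ → ℕ → Bool)) := inferInstance
  show SecondCountableTopology ((ℕ → ℕ → ℕ → ℕ → Bool) × ((Γ → ℕ → ℕ) × (ℕ → ℕ → Bool)))
  infer_instance

/-- The theorem on subsets of median trees. -/
theorem t_QUA (h : S_MED) (hG : S_GEO) (hE : S_GEO → S_QDF → S_QEX) (hD : S_QDF) (hI : S_QIN)
    (hU : S_GEO → S_QDF → S_QUN) (hM : S_QME)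
    (hs : ∀ {Γ : Type} {σ : Equiv.Perm ℕ} {x y : XQ Γ}, IsoQ σ x y → IsoQ σ.symm y x)
    (ht : ∀ {Γ : Type} {σ τ : Equiv.Perm ℕ} {x y z : XQ Γ}, IsoQ σ x y → IsoQ τ y z →
      IsoQ (σ.trans τ) x z) : S_QUA := by
  intro Γ _ _ B hBm hQA hinv
  obtain ⟨hM1, hM2, b1, hM3⟩ := hM Γ
  have b2 : BorelSpace (XC Γ) := bsC
  have b3 : SecondCountableTopology (XQ Γ) := sc5 Γ
  set A : Set (XC Γ) := {y | DQ y ∈ B ∧ GQ y} with hAdef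
  have hAm : MeasurableSet A := (hM1 hBm).inter hM2
  have hAi : ∀ y ∈ A, ∀ (y' : XC Γ) (σ : Equiv.Perm ℕ), IsoC σ y y' → y' ∈ A := by
    rintro y ⟨h1, h2⟩ y' σ hσ
    obtain ⟨h3, τ, hτ⟩ := hI Γ y y' σ h2 hσ
    exact ⟨hinv _ h1 _ τ hτ, h3⟩
  refine transfer (EX := fun x y : XC Γ => ∃ σ : Equiv.Perm ℕ, IsoC σ x y)
    (EY := fun x y : XQ Γ => ∃ σ : Equiv.Perm ℕ, IsoQ σ x y) ?_ ?_ ?_ DQ hM1 A B ?_ ?_ ?_ ?_ ?_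
    (h Γ A hAm (fun y hy => hy.2.mt) hAi)
  · rintro x y ⟨σ, hσ⟩
    exact ⟨_, isoC_symm hσ⟩
  · rintro x y z ⟨σ, hσ⟩ ⟨τ, hτ⟩
    exact ⟨_, isoC_trans hσ hτ⟩
  · rintro x y z ⟨σ, hσ⟩ ⟨τ, hτ⟩
    exact ⟨_, ht hσ hτ⟩
  · exact fun y hy => hy.1
  · intro x hx
    obtain ⟨y, hy, σ, hσ⟩ := hE hG hD Γ x (hQA x hx)
    exact ⟨y, ⟨hinv x hx _ _ (hs hσ), hy⟩, σ, hσ⟩
  · rintro y y' ⟨h1, h2⟩ ⟨σ, hσ⟩
    obtain ⟨h3, τ, hτ⟩ := hI Γ y' y _ h2 (isoC_symm hσ)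
    exact ⟨_, hs hτ⟩
  · rintro y ⟨h1, h2⟩
    refine ⟨{y}, Set.countable_singleton y, ?_⟩
    rintro y' ⟨h3, h4⟩ ⟨σ, hσ⟩
    exact ⟨y, rfl, hU hG hD Γ y y' σ h2 h4 hσ⟩
  · exact fun u hu => hM3 u hu

end Pool.Agent.Y560.TQ
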