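import Pool.Agent.Y560.TH.Cst3

/-!
Project TQ: countable subsets of median trees (treelike quaternary relations) with a group action;
the median tree they generate.
-/

set_option autoImplicit false

namespace Pool.Agent.Y560.TQ

open Set MeasureTheory
open Pool.Agent.Y560.TH (XC IsoC MT S_MED)

/-- Structures on `ℕ`: a quaternary relation `x.1`, a function `x.2.1 γ` for every `γ` in `Γ`, and
unary predicates `x.2.2 i`. -/
abbrev XQ (Γ : Type) : Type := (ℕ → ℕ → ℕ → ℕ → Bool) × (Γ → ℕ → ℕ) × (ℕ → ℕ → Bool)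

/-- Median trees: `I a b c` says that the point `b` is on the path from `a` to `c`. -/
structure Mtr {M : Type} (I : M → M → M → Prop) : Prop where
  left : ∀ a c, I a a c
  symm : ∀ a b c, I a b c → I c b a
  anti : ∀ a b c, I a b c → I a c b → b = c
  tree : ∀ a b c d, I a d c → I a d b ∨ I b d c
  med : ∀ a b c, ∃ m, I a m b ∧ I b m c ∧ I a m c

/-- The paths from `a` to `b` and from `c` to `d` meet. -/
def meets {M : Type} (I : M → M → M → Prop) (a b c d : M) : Prop := ∃ m, I a m b ∧ I c m d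

/-- `u` is the median of `a`, `b`, `c`. -/
def md {M : Type} (I : M → M → M → Prop) (a b c u : M) : Prop := I a u b ∧ I b u c ∧ I a u c

/-- `x.1 a b c d` says that the paths from `a` to `b` and from `c` to `d` are disjoint, for some
injective map of the points to a median tree; and `x.2.1` is an action by automorphisms. -/
structure QA {Γ : Type} [Group Γ] (x : XQ Γ) : Prop where
  emb : ∃ (M : Type) (I : M → M → M → Prop) (e : ℕ → M), Mtr I ∧ Function.Injective e ∧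
    ∀ a b c d, x.1 a b c d = true ↔ ¬ meets I (e a) (e b) (e c) (e d)
  one : ∀ m, x.2.1 1 m = m
  mul : ∀ γ δ m, x.2.1 (γ * δ) m = x.2.1 γ (x.2.1 δ m)
  auto : ∀ γ a b c d, x.1 (x.2.1 γ a) (x.2.1 γ b) (x.2.1 γ c) (x.2.1 γ d) = x.1 a b c d

/-- `σ` is an isomorphism from `x` to `y`. -/
def IsoQ {Γ : Type} (σ : Equiv.Perm ℕ) (x y : XQ Γ) : Prop :=
  (∀ a b c d, y.1 (σ a) (σ b) (σ c) (σ d) = x.1 a b c d) ∧
    (∀ γ m, y.2.1 γ (σ m) = σ (x.2.1 γ m)) ∧ ∀ i m, y.2.2 i (σ m) = x.2.2 i m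

/-- The theorem on subsets of median trees with a group action. -/
def S_QUA : Prop := ∀ (Γ : Type) [Group Γ] [Countable Γ] (B : Set (XQ Γ)), MeasurableSet B →
  (∀ x ∈ B, QA x) → (∀ x ∈ B, ∀ (y : XQ Γ) (σ : Equiv.Perm ℕ), IsoQ σ x y → y ∈ B) →
  (∃ f : ℕ → XQ Γ, ∀ x ∈ B, ∃ n, ∃ σ : Equiv.Perm ℕ, IsoQ σ (f n) x) ∨
  (∃ c : (ℕ → Bool) → XQ Γ, Continuous c ∧ (∀ A, c A ∈ B) ∧
    ∀ A A', (∃ σ : Equiv.Perm ℕ, IsoQ σ (c A) (c A')) → A = A')

/-! ### Geometry -/

/-- Facts on median trees: medians are unique; when a median is on a path (Helly); betweenness is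
determined by the paths between points of a generating set; medians of medians of points are
medians of points. -/
structure GEO {M : Type} (I : M → M → M → Prop) : Prop where
  uniq : ∀ a b c u v, md I a b c u → md I a b c v → u = v
  helly : ∀ a b c u p q, md I a b c u →
    (I p u q ↔ meets I p q a b ∧ meets I p q b c ∧ meets I p q a c)
  betw : ∀ P : M → Prop, (∀ u, ∃ a b c, P a ∧ P b ∧ P c ∧ md I a b c u) → ∀ u v w,
    (I u v w ↔ ∀ p q, P p → P q → I p u q → I p w q → I p v q)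
  gen : ∀ P : M → Prop, ∀ u v w m, (∃ a b c, P a ∧ P b ∧ P c ∧ md I a b c u) →
    (∃ a b c, P a ∧ P b ∧ P c ∧ md I a b c v) → (∃ a b c, P a ∧ P b ∧ P c ∧ md I a b c w) →
    md I u v w m → ∃ a b c, P a ∧ P b ∧ P c ∧ md I a b c m

/-- The facts. -/
def S_GEO : Prop := ∀ (M : Type) (I : M → M → M → Prop), Mtr I → GEO I

/-! ### Codes -/

section code

variable {Γ : Type}

/-- Betweenness in the code. -/
def It (y : XC Γ) (a b c : ℕ) : Prop := y.1 a b c = true

/-- `k` is a point. -/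
def Pq (y : XC Γ) (k : ℕ) : Prop := y.2.2 0 k = true

/-- The codes: median trees with an action, generated by an infinite invariant set `Pq`. -/
structure GQ [Group Γ] (y : XC Γ) : Prop where
  mt : MT y
  inf : {k | Pq y k}.Infinite
  cl : ∀ γ k, Pq y k → Pq y (y.2.1 γ k)
  gen : ∀ k, ∃ a b c, Pq y a ∧ Pq y b ∧ Pq y c ∧ md (It y) a b c k
  sub : ∀ i k, y.2.2 (i + 1) k = true → Pq y k

/-- The points. -/
noncomputable def enq (y : XC Γ) (m : ℕ) : ℕ := Nat.nth (fun k => Pq y k) m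

open Classical in
/-- The decoding map. -/
noncomputable def DQ (y : XC Γ) : XQ Γ :=
  (fun a b c d => decide (¬ meets (It y) (enq y a) (enq y b) (enq y c) (enq y d)),
   fun γ m => Nat.nth (fun j => enq y j = y.2.1 γ (enq y m)) 0,
   fun i m => y.2.2 (i + 1) (enq y m))

end code

/-- Facts on the decoding. -/
structure DFQ {Γ : Type} [Group Γ] (y : XC Γ) : Prop where
  inj : ∀ m n, enq y m = enq y n → m = n
  mem : ∀ m, Pq y (enq y m)
  sur : ∀ k, Pq y k → ∃ m, enq y m = k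
  act : ∀ γ m, enq y ((DQ y).2.1 γ m) = y.2.1 γ (enq y m)

/-- Basic facts. -/
def S_QDF : Prop := ∀ (Γ : Type) [Group Γ] (y : XC Γ), GQ y → DFQ y

/-- Existence of the generated tree. -/
def S_QEX : Prop := ∀ (Γ : Type) [Group Γ] (x : XQ Γ), QA x →
  ∃ y : XC Γ, GQ y ∧ ∃ σ : Equiv.Perm ℕ, IsoQ σ (DQ y) x

/-- Invariance of the codes. -/
def S_QIN : Prop := ∀ (Γ : Type) [Group Γ] (y y' : XC Γ) (τ : Equiv.Perm ℕ),
  GQ y → IsoC τ y y' → GQ y' ∧ ∃ σ : Equiv.Perm ℕ, IsoQ σ (DQ y) (DQ y')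

/-- Uniqueness of the generated tree. -/
def S_QUN : Prop := ∀ (Γ : Type) [Group Γ] (y y' : XC Γ) (σ : Equiv.Perm ℕ),
  GQ y → GQ y' → IsoQ σ (DQ y) (DQ y') → ∃ τ : Equiv.Perm ℕ, IsoC τ y y'

/-- Measurability and analyticity. -/
def S_QME : Prop := ∀ (Γ : Type) [Group Γ] [Countable Γ],
  Measurable (DQ : XC Γ → XQ Γ) ∧ MeasurableSet {y : XC Γ | GQ y} ∧ BorelSpace (XQ Γ) ∧
  ∀ u : (ℕ → Bool) → XQ Γ, Measurable u → AnalyticSet {p : (ℕ → Bool) × (ℕ → Bool) |
    ∃ σ : Equiv.Perm ℕ, IsoQ σ (u p.1) (u p.2)}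

end Pool.Agent.Y560.TQ
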