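import Pool.Agent.Y560.TQ.Defs

/-!
Project TQ: D-relations (Adeleke, Neumann) are represented by the leaves of median trees; the
statement.
-/

set_option autoImplicit false

namespace Pool.Agent.Y560.TQ

/-- D-relations: the path from `a` to `b` is disjoint from the path from `c` to `d`. -/
structure DR (D : ℕ → ℕ → ℕ → ℕ → Prop) : Prop where
  swap : ∀ a b c d, D a b c d → D b a c d
  comm : ∀ a b c d, D a b c d → D c d a b
  excl : ∀ a b c d, D a b c d → ¬ D a c b d
  split : ∀ a b c d u, D a b c d → D u b c d ∨ D a b c u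
  pair : ∀ a b c, a ≠ c → b ≠ c → D a b c c

/-- They are represented by median trees. -/
def S_DRL : Prop := ∀ D : ℕ → ℕ → ℕ → ℕ → Prop, DR D →
  ∃ (M : Type) (I : M → M → M → Prop) (e : ℕ → M), Mtr I ∧ Function.Injective e ∧
    ∀ a b c d, D a b c d ↔ ¬ meets I (e a) (e b) (e c) (e d)

end Pool.Agent.Y560.TQ
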